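import Pool.Agent.V1132.CN.NearF

set_option autoImplicit false

/-! Let `G` be torsion-free and let `ψ` be a nonsingular quadratic form of even rank over `ℤG`. If
`ψ` is stably hyperbolic, its class contains hyperbolic forms; otherwise the distance of the class
of `ψ` from the hyperbolic forms is exactly `√2`. A nonsingular form at distance less than `√2`
from the hyperbolic form is isometric to it by a product of elementary matrices. -/

namespace Pool.Agent.Results.MP_98022b_gt.CriticalDistance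

open Matrix TH57.Thr TH6.LF Pool.Agent.V1132.CN

/-- The group `G` is torsion-free. -/
def TFree (G : Type) [Group G] : Prop := ∀ g : G, ∀ n : ℕ, 0 < n → g ^ n = 1 → g = 1

/-- The adjoint of the form `φ` is at distance at most `c` from that of the hyperbolic form. -/
def Near (G : Type) [Group G] (ε : ℤ) (ι : Type) [Fintype ι] [DecidableEq ι]
    (φ : Matrix (ι ⊕ ι) (ι ⊕ ι) (MonoidAlgebra ℤ G)) (c : ℝ) : Prop :=
  NormLE ((φ - hyp (MonoidAlgebra ℤ G) ι) + ε • adj (φ - hyp (MonoidAlgebra ℤ G) ι)) c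

/-- Some form stably isometric to `ψ` is at distance at most `c` from the hyperbolic form. -/
def HasNear (G : Type) [Group G] (ε : ℤ) (κ : Type) [Fintype κ] [DecidableEq κ]
    (ψ : Matrix κ κ (MonoidAlgebra ℤ G)) (c : ℝ) : Prop :=
  ∃ (ι : Type) (_ : Fintype ι) (_ : DecidableEq ι)
    (φ : Matrix (ι ⊕ ι) (ι ⊕ ι) (MonoidAlgebra ℤ G)), StabIsom ε ψ φ ∧ Near G ε ι φ c

/-- The distance of the stable isometry class of `ψ` from the hyperbolic forms. -/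
noncomputable def hypDist (G : Type) [Group G] (ε : ℤ) (κ : Type) [Fintype κ] [DecidableEq κ]
    (ψ : Matrix κ κ (MonoidAlgebra ℤ G)) : ℝ :=
  sInf {c : ℝ | 0 ≤ c ∧ HasNear G ε κ ψ c}

/-- `D` is a diagonal with entries `0` and `1`, and `D = 0` if `ε = 1`. -/
def Arf {ι : Type} (ε : ℤ) (D : ι → ℤ) : Prop :=
  (∀ i, D i = 0 ∨ D i = 1) ∧ (ε = 1 → ∀ i, D i = 0)

/-- `ψ` is stably hyperbolic (`ε = 1`), respectively stably isometric to the sum of the hyperbolic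
form and a diagonal matrix with entries `0` and `1` (`ε = -1`; a form induced from `ℤ`). -/
def Hyperbolic (G : Type) [Group G] (ε : ℤ) (κ : Type) [Fintype κ] [DecidableEq κ]
    (ψ : Matrix κ κ (MonoidAlgebra ℤ G)) : Prop :=
  ∃ (ι : Type) (_ : Fintype ι) (_ : DecidableEq ι) (D : ι ⊕ ι → ℤ), Arf ε D ∧
    StabIsom ε ψ (hyp (MonoidAlgebra ℤ G) ι + dgZ D)

/-- `P` is a product of elementary matrices. -/
def Elem (G : Type) [Group G] (ι : Type) [Fintype ι] [DecidableEq ι]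
    (P : Matrix ι ι (MonoidAlgebra ℤ G)) : Prop := P ∈ El (R := MonoidAlgebra ℤ G) ι

theorem hasNear (G : Type) [Group G] {ε : ℤ} (hε : ε = 1 ∨ ε = -1) (κ : Type) [Fintype κ]
    [DecidableEq κ] (ψ : Matrix (κ ⊕ κ) (κ ⊕ κ) (MonoidAlgebra ℤ G)) :
    HasNear G ε (κ ⊕ κ) ψ (Real.sqrt 2) := by
  obtain ⟨q, i1, i2, P, hP, hN⟩ := dist_form ψ
  let f : (κ ⊕ q) ⊕ (κ ⊕ q) ≃ (κ ⊕ κ) ⊕ (q ⊕ q) := Equiv.sumSumSumComm κ q κ q
  refine ⟨κ ⊕ q, inferInstance, inferInstance,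
    (P.val * addHyp q ψ * adj P.val).submatrix f f, ?_, ?_⟩
  · refine ⟨q, Fin 0, i1, i2, inferInstance, inferInstance, f.symm.trans (em _), P, 0, ?_⟩
    have h1 : (addHyp (Fin 0) ((P.val * addHyp q ψ * adj P.val).submatrix f f)).submatrix
        (f.symm.trans (em _)) (f.symm.trans (em _)) = P.val * addHyp q ψ * adj P.val := by
      have h2 : (addHyp (Fin 0) ((P.val * addHyp q ψ * adj P.val).submatrix f f)).submatrix
          (f.symm.trans (em _)) (f.symm.trans (em _))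
          = ((P.val * addHyp q ψ * adj P.val).submatrix f f).submatrix f.symm f.symm := rfl
      rw [h2, Matrix.submatrix_submatrix]
      simp
    rw [h1, adj_zero, smul_zero, sub_zero, add_zero]
  · have h1 : hyp (MonoidAlgebra ℤ G) (κ ⊕ q)
        = (addHyp q (hyp (MonoidAlgebra ℤ G) κ)).submatrix f f := by
      ext1 i j
      rcases i with (i | i) | (i | i) <;> rcases j with (j | j) | (j | j) <;>
        simp [hyp, addHyp, f, Matrix.one_apply]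
    have h2 := NormLE_re f _ _ (hN ε hε)
    unfold Near
    rw [h1]
    exact h2

theorem result (ε : ℤ) (hε : ε = 1 ∨ ε = -1) :
    -- every group, every form of even rank
    (∀ (G : Type) [Group G] (κ : Type) [Fintype κ] [DecidableEq κ]
      (ψ : Matrix (κ ⊕ κ) (κ ⊕ κ) (MonoidAlgebra ℤ G)),
      HasNear G ε (κ ⊕ κ) ψ (Real.sqrt 2) ∧ 0 ≤ hypDist G ε (κ ⊕ κ) ψ ∧
        hypDist G ε (κ ⊕ κ) ψ ≤ Real.sqrt 2) ∧
    -- torsion-free groups, nonsingular forms: the dichotomy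
    (∀ (G : Type) [Group G], TFree G → ∀ (κ : Type) [Fintype κ] [DecidableEq κ]
      (ψ : Matrix (κ ⊕ κ) (κ ⊕ κ) (MonoidAlgebra ℤ G)), IsUnit (ψ + ε • adj ψ) →
      (Hyperbolic G ε (κ ⊕ κ) ψ ∧ hypDist G ε (κ ⊕ κ) ψ = 0) ∨
      (¬ Hyperbolic G ε (κ ⊕ κ) ψ ∧ hypDist G ε (κ ⊕ κ) ψ = Real.sqrt 2)) ∧
    -- torsion-free groups: below `√2` the form itself is hyperbolic, by elementary matrices
    (∀ (G : Type) [Group G], TFree G → ∀ (κ : Type) [Fintype κ] [DecidableEq κ]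
      (ψ : Matrix (κ ⊕ κ) (κ ⊕ κ) (MonoidAlgebra ℤ G)), IsUnit (ψ + ε • adj ψ) →
      ∀ c : ℝ, c ^ 2 < 2 → Near G ε κ ψ c →
      ∃ (P : Matrix (κ ⊕ κ) (κ ⊕ κ) (MonoidAlgebra ℤ G)) (D : κ ⊕ κ → ℤ)
        (χ : Matrix (κ ⊕ κ) (κ ⊕ κ) (MonoidAlgebra ℤ G)), Elem G (κ ⊕ κ) P ∧ Arf ε D ∧
        P * ψ * adj P = (hyp (MonoidAlgebra ℤ G) κ + dgZ D) + (χ - ε • adj χ)) ∧
    -- every group: the same for the adjoints
    (∀ (G : Type) [Group G] (κ : Type) [Fintype κ] [DecidableEq κ]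
      (ψ : Matrix (κ ⊕ κ) (κ ⊕ κ) (MonoidAlgebra ℤ G)), IsUnit (ψ + ε • adj ψ) →
      ∀ c : ℝ, c ^ 2 < 2 → Near G ε κ ψ c →
      ∃ P : Matrix (κ ⊕ κ) (κ ⊕ κ) (MonoidAlgebra ℤ G), Elem G (κ ⊕ κ) P ∧
        P * (ψ + ε • adj ψ) * adj P
          = hyp (MonoidAlgebra ℤ G) κ + ε • adj (hyp (MonoidAlgebra ℤ G) κ)) := by
  have hεε : ε * ε = 1 := by rcases hε with rfl | rfl <;> norm_num
  have hr2 : Real.sqrt 2 ^ 2 = 2 := Real.sq_sqrt two_pos.le
  have hle : ∀ (G : Type) [Group G] (κ : Type) [Fintype κ] [DecidableEq κ]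
      (ψ : Matrix (κ ⊕ κ) (κ ⊕ κ) (MonoidAlgebra ℤ G)),
        hypDist G ε (κ ⊕ κ) ψ ≤ Real.sqrt 2 := fun G _ κ _ _ ψ =>
    csInf_le ⟨0, fun c hc => hc.1⟩ ⟨Real.sqrt_nonneg 2, hasNear G hε κ ψ⟩
  refine ⟨fun G _ κ _ _ ψ => ⟨hasNear G hε κ ψ, Real.sInf_nonneg fun c hc => hc.1,
    hle G κ ψ⟩, fun G _ htf κ _ _ ψ hψ => ?_, fun G _ htf κ _ _ ψ hψ c hc hN => ?_,
    fun G _ κ _ _ ψ hψ c hc hN => ?_⟩
  · by_cases h : Hyperbolic G ε (κ ⊕ κ) ψ
    · refine Or.inl ⟨h, sInf_zero (fun c hc => hc.1) ?_⟩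
      obtain ⟨ι, i1, i2, D, hD, hS⟩ := h
      refine ⟨le_rfl, ι, i1, i2, _, hS, ?_⟩
      have h1 : (hyp (MonoidAlgebra ℤ G) ι + dgZ D - hyp (MonoidAlgebra ℤ G) ι)
          + ε • adj (hyp (MonoidAlgebra ℤ G) ι + dgZ D - hyp (MonoidAlgebra ℤ G) ι) = 0 := by
        rw [add_sub_cancel_left, adj_dgZ]
        rcases hε with h2 | h2
        · have h3 : (dgZ D : Matrix (ι ⊕ ι) (ι ⊕ ι) (MonoidAlgebra ℤ G)) = 0 := by
            have h4 : D = fun _ => 0 := funext (hD.2 h2)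
            rw [h4]
            ext1 i j
            rw [dgZ, Matrix.diagonal_apply]
            split_ifs <;> simp
          rw [h3, smul_zero, add_zero]
        · rw [h2, neg_smul, one_smul, add_neg_cancel]
      unfold Near
      rw [h1]
      intro x
      have h2 : x ᵥ* toReal (0 : Matrix (ι ⊕ ι) (ι ⊕ ι) (MonoidAlgebra ℤ G)) = 0 := by
        have h3 : toReal (0 : Matrix (ι ⊕ ι) (ι ⊕ ι) (MonoidAlgebra ℤ G)) = 0 := by
          ext1 i j
          exact map_zero (MonoidAlgebra.mapRingHom G (Int.castRingHom ℝ))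
        rw [h3, Matrix.vecMul_zero]
      rw [h2]
      simp [normSq]
    · refine Or.inr ⟨h, le_antisymm (hle G κ ψ) ?_⟩
      refine le_csInf ⟨Real.sqrt 2, Real.sqrt_nonneg 2, hasNear G hε κ ψ⟩ ?_
      rintro c ⟨h0, ι, i1, i2, φ, hS, hN⟩
      by_contra hlt
      push Not at hlt
      have hc : c ^ 2 < 2 := by
        rw [← hr2]
        exact pow_lt_pow_left₀ hlt h0 two_ne_zero
      obtain ⟨P, hP, D, χ, hD1, hD2, h1⟩ := near_hyp htf hε φ (hS.nonsing hεε ψ φ hψ) c hc hN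
      obtain ⟨u, hu, -⟩ := El_unit P hP
      refine h ⟨ι, i1, i2, D, ⟨hD1, hD2⟩, ?_⟩
      exact stabIsom_right ε ψ φ _ hS u χ (by rw [hu]; exact h1)
  · obtain ⟨P, hP, D, χ, hD1, hD2, h1⟩ := near_hyp htf hε ψ hψ c hc hN
    exact ⟨P, D, χ, hP, ⟨hD1, hD2⟩, h1⟩
  · obtain ⟨P, hP, h1⟩ := near_adj hεε ψ hψ c hc hN
    exact ⟨P, hP, h1⟩

end Pool.Agent.Results.MP_98022b_gt.CriticalDistance
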