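import Pool.Agent.V1132.CN.Forms

set_option autoImplicit false

/-! Quadratic forms over `ℤG`. In every stable isometry class there are forms whose adjoint has
operator norm arbitrarily close to `3 / √2`. For a torsion-free group `G` the least norm in the
class is exactly `3 / √2`, unless the class contains an orthogonal sum of forms induced from cyclic
subgroups. -/

namespace Pool.Agent.Results.MP_98022b_gt.CriticalNormForms

open Matrix TH57.Thr TH6.LF Pool.Agent.V1132.CN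

/-- The group `G` is torsion-free. -/
def TFree (G : Type) [Group G] : Prop := ∀ g : G, ∀ n : ℕ, 0 < n → g ^ n = 1 → g = 1

/-- Every nonsingular `ε`-quadratic form over `ℤG` is stably isometric to an orthogonal sum of
forms induced from cyclic subgroups. -/
def AllFromCyc (G : Type) [Group G] (ε : ℤ) : Prop :=
  ∀ (κ : Type) [Fintype κ] [DecidableEq κ] (ψ : Matrix κ κ (MonoidAlgebra ℤ G)),
    IsUnit (ψ + ε • adj ψ) → FromCyc ε ψ

/-- The same for the forms whose adjoint has norm at most `c`. -/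
def SmallFromCyc (G : Type) [Group G] (ε : ℤ) (c : ℝ) : Prop :=
  ∀ (κ : Type) [Fintype κ] [DecidableEq κ] (ψ : Matrix κ κ (MonoidAlgebra ℤ G)),
    IsUnit (ψ + ε • adj ψ) → NormLE (ψ + ε • adj ψ) c → FromCyc ε ψ

theorem one_lt_thr : (1 : ℝ) < 3 / Real.sqrt 2 := by
  by_contra h
  push Not at h
  have h2 : (3 / Real.sqrt 2) ^ 2 ≤ 1 ^ 2 := pow_le_pow_left₀ thr_pos.le h 2
  rw [thr_sq] at h2
  norm_num at h2

theorem norm_mono {G : Type} [Group G] {κ : Type} [Fintype κ]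
    (A : Matrix κ κ (MonoidAlgebra ℤ G)) (c d : ℝ) (h0 : 0 ≤ c) (h : c ≤ d) (hA : NormLE A c) :
    NormLE A d := fun x =>
  (hA x).trans (mul_le_mul_of_nonneg_right (pow_le_pow_left₀ h0 h 2) (by
      unfold normSq
      exact Finset.sum_nonneg fun _ _ => Finset.sum_nonneg fun _ _ => sq_nonneg _))

theorem small_cyc {G : Type} [Group G] (htf : TFree G) (ε : ℤ) (hε : ε = 1 ∨ ε = -1)
    {κ : Type} [Fintype κ] [DecidableEq κ] (ψ : Matrix κ κ (MonoidAlgebra ℤ G)) (c : ℝ)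
    (h0 : 0 ≤ c) (hc : c < 3 / Real.sqrt 2) (hψ : NormLE (ψ + ε • adj ψ) c) : CycForm ε ψ :=
  forms_below htf ε hε (max c 1) (lt_max_of_lt_right one_pos)
    (sq_lt_of_lt (le_max_of_le_left h0) (max_lt hc one_lt_thr)) ψ
    (norm_mono _ c _ h0 (le_max_left _ _) hψ)

theorem stabIsom_refl {G : Type} [Group G] (ε : ℤ) {κ : Type} [Fintype κ] [DecidableEq κ]
    (ψ : Matrix κ κ (MonoidAlgebra ℤ G)) : StabIsom ε ψ ψ := by
  refine ⟨Fin 0, Fin 0, inferInstance, inferInstance, inferInstance, inferInstance,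
    Equiv.refl _, 1, 0, ?_⟩
  rw [Units.val_one, adj_one, Matrix.one_mul, Matrix.mul_one, adj_zero, smul_zero, sub_zero,
    add_zero]
  rfl

theorem result (ε : ℤ) (hε : ε = 1 ∨ ε = -1) :
    -- every group, every form
    (∀ (G : Type) [Group G] (κ : Type) [Fintype κ] [DecidableEq κ]
      (ψ : Matrix κ κ (MonoidAlgebra ℤ G)),
      (∀ c : ℝ, 3 / Real.sqrt 2 < c → ∃ (μ : Type) (_ : Fintype μ) (_ : DecidableEq μ)
        (P : (Matrix (κ ⊕ (μ ⊕ μ)) (κ ⊕ (μ ⊕ μ)) (MonoidAlgebra ℤ G))ˣ),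
        P ∈ commutator (Matrix (κ ⊕ (μ ⊕ μ)) (κ ⊕ (μ ⊕ μ)) (MonoidAlgebra ℤ G))ˣ ∧
        NormLE (P.val * addHyp μ ψ * adj P.val + ε • adj (P.val * addHyp μ ψ * adj P.val)) c) ∧
      0 ≤ formNorm ε ψ ∧ formNorm ε ψ ≤ 3 / Real.sqrt 2) ∧
    -- torsion-free groups: the exact value
    (∀ (G : Type) [Group G], TFree G → ∀ (κ : Type) [Fintype κ] [DecidableEq κ]
      (ψ : Matrix κ κ (MonoidAlgebra ℤ G)),
      FromCyc ε ψ ∨ formNorm ε ψ = 3 / Real.sqrt 2) ∧
    -- the bound `c` on the norm is no restriction above `3 / √2`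
    (∀ (G : Type) [Group G], TFree G → ∀ c : ℝ, 0 ≤ c →
      (3 / Real.sqrt 2 < c → (SmallFromCyc G ε c ↔ AllFromCyc G ε)) ∧
      (c < 3 / Real.sqrt 2 → SmallFromCyc G ε c)) := by
  have up : ∀ (G : Type) [Group G] (κ : Type) [Fintype κ] [DecidableEq κ]
      (ψ : Matrix κ κ (MonoidAlgebra ℤ G)) (c : ℝ), 3 / Real.sqrt 2 < c →
      c ∈ {c : ℝ | 0 ≤ c ∧ HasForm ε ψ c} := by
    intro G _ κ _ _ ψ c hc
    obtain ⟨q, i1, i2, P, hP, hN⟩ := hasForm ε hε ψ c hc
    exact ⟨(sq_gt_of_gt hc).1.le, κ ⊕ (q ⊕ q), inferInstance, inferInstance, _,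
      stabIsom_of_step ε ψ P, hN⟩
  refine ⟨fun G _ κ _ _ ψ => ⟨fun c hc => hasForm ε hε ψ c hc,
    Real.sInf_nonneg fun c hc => hc.1, sInf_le_thr (fun c hc => hc.1) _ (up G κ ψ)⟩,
    fun G _ htf κ _ _ ψ => ?_, fun G _ htf c h0 => ⟨fun hc => ⟨fun h κ _ _ ψ hψ => ?_,
      fun h κ _ _ ψ hψ _ => h κ ψ hψ⟩, fun hc κ _ _ ψ _ hN => ?_⟩⟩
  · by_cases h : FromCyc ε ψ
    · exact Or.inl h
    · refine Or.inr (sInf_thr (fun c hc => hc.1) _ (up G κ ψ) ?_)
      rintro c ⟨h0, ι, i1, i2, φ, h1, h2⟩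
      by_contra hlt
      exact h ⟨ι, i1, i2, φ, h1, small_cyc htf ε hε φ c h0 (not_le.1 hlt) h2⟩
  · obtain ⟨q, i1, i2, P, hP, hN⟩ := hasForm ε hε ψ c hc
    have hadj : P.val * addHyp q ψ * adj P.val + ε • adj (P.val * addHyp q ψ * adj P.val)
        = P.val * (addHyp q ψ + ε • adj (addHyp q ψ)) * adj P.val := by
      rw [adj_mul, adj_mul, adj_adj, Matrix.mul_add, Matrix.add_mul, Matrix.mul_smul,
        Matrix.smul_mul, Matrix.mul_assoc P.val (adj (addHyp q ψ))]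
    have hPu : IsUnit (adj P.val) := by
      refine ⟨⟨adj P.val, adj P⁻¹.val, ?_, ?_⟩, rfl⟩
      · rw [← adj_mul, Units.inv_mul, adj_one]
      · rw [← adj_mul, Units.mul_inv, adj_one]
    have hHu : IsUnit (addHyp q ψ + ε • adj (addHyp q ψ)) := by
      obtain ⟨v, hv⟩ := hψ
      have hεε : ε * ε = 1 := by rcases hε with rfl | rfl <;> norm_num
      have e1 : addHyp q ψ + ε • adj (addHyp q ψ)
          = fromBlocks (ψ + ε • adj ψ) 0 0
            (fromBlocks (0 : Matrix q q (MonoidAlgebra ℤ G)) 1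
              (ε • (1 : Matrix q q (MonoidAlgebra ℤ G))) 0) := by
        unfold addHyp
        rw [adj_fromBlocks, adj_fromBlocks, Matrix.fromBlocks_smul, Matrix.fromBlocks_smul,
          Matrix.fromBlocks_add, Matrix.fromBlocks_add]
        simp [adj_zero, adj_one]
      rw [e1, ← hv]
      refine ⟨⟨fromBlocks v.val 0 0
            (fromBlocks (0 : Matrix q q (MonoidAlgebra ℤ G)) 1
              (ε • (1 : Matrix q q (MonoidAlgebra ℤ G))) 0), fromBlocks v⁻¹.val 0 0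
            (fromBlocks (0 : Matrix q q (MonoidAlgebra ℤ G))
              (ε • (1 : Matrix q q (MonoidAlgebra ℤ G))) 1 0), ?_, ?_⟩, rfl⟩
      · rw [Matrix.fromBlocks_multiply, Matrix.fromBlocks_multiply, ← Matrix.fromBlocks_one,
          ← Matrix.fromBlocks_one]
        simp only [Units.mul_inv, Matrix.mul_zero, Matrix.zero_mul, Matrix.mul_one, add_zero,
          zero_add, Matrix.smul_mul, Matrix.mul_smul, smul_smul, hεε, one_smul, smul_zero]
      · rw [Matrix.fromBlocks_multiply, Matrix.fromBlocks_multiply, ← Matrix.fromBlocks_one,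
          ← Matrix.fromBlocks_one]
        simp only [Units.inv_mul, Matrix.mul_zero, Matrix.zero_mul, Matrix.mul_one, add_zero,
          zero_add, Matrix.smul_mul, Matrix.mul_smul, smul_smul, hεε, one_smul, smul_zero]
    have hu : IsUnit (P.val * addHyp q ψ * adj P.val
        + ε • adj (P.val * addHyp q ψ * adj P.val)) := by
      rw [hadj]
      exact (P.isUnit.mul hHu).mul hPu
    obtain ⟨ι, i3, i4, φ, h1, h2⟩ := h _ _ hu hN
    exact ⟨ι, i3, i4, φ, stabIsom_trans_step ε ψ P φ h1, h2⟩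
  · exact ⟨κ, inferInstance, inferInstance, ψ, stabIsom_refl ε ψ,
      small_cyc htf ε hε ψ c h0 hc hN⟩

end Pool.Agent.Results.MP_98022b_gt.CriticalNormForms
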