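import Pool.Agent.H65FJ.Pres

/-!
# Farrell–Jones groups: presentations which are closed under deletions

`C` is any class of groups with the closure properties `ClosedE C`: it contains `ℤ` and is closed
under subgroups, finite products, free products, overgroups of finite index, directed colimits and
satisfies the extension criterion with virtually cyclic subgroups. All this is known for the class of
the groups that satisfy the K- and L-theoretic Farrell–Jones conjecture with coefficients and finite
wreath products; for a torsion-free group `π_1 X` in this class `A_*` is an equivalence.

Let `G` be the quotient of the free product of groups `A v`, `v ∈ V`, by a set `R` of relators such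
that (i) each relator is supported in a finite set of vertices which is a clique of a graph `Λ` on
`V`, and (ii) if all letters from one of the groups `A v` are deleted in a relator, the result is a
consequence of `R`. If for every finite clique `T` the subgroup of `G` which is generated by the
`A v`, `v ∈ T`, is in `C`, then `G` is in `C`.

Examples are the even Artin groups, the even Coxeter groups and the even Shephard groups, with the
relations `(x y) ^ k = (y x) ^ k` and `x ^ n = 1`, with arbitrarily many generators and arbitrary
`k` (part (2)), and graph products.

Outline of the proof. By (ii) the subgroup `G_S` generated by the `A v`, `v ∈ S`, is a retract of `G`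
for each set `S`. If the vertices `s`, `t` of the finite set `S` are not adjacent, then by (i) `G_S` is
the amalgamated product of `G_{S - s}` and `G_{S - t}` over the intersection, and it has a
homomorphism to the product of these two groups which is injective on both of them.
-/

set_option autoImplicit false

namespace Pool.Agent.Results.MP_98022b_gt.DeletionClosedPresentations

open Pool.Agent.Y110.FJ (ClosedE)
open Pool.Agent.H65FJ (Pres DelClosed Clique Special Cy EvenRel)

/-- Let `C` be a class of groups with the closure properties `ClosedE C`. (1) Let `Pres A R` be the
quotient of the free product of the groups `A v` by a set `R` of relators which is closed under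
deletions and such that each relator is supported in a finite clique of the graph `Λ`. If the
subgroups of `Pres A R` which are generated by the `A v` for the `v` in finite cliques are in `C`, then
`Pres A R` is in `C`. (2) Let `G` be the group with generators `x_v` of order `n v` (infinite if
`n v = 0`) and relations `(x_v x_w) ^ k = (x_w x_v) ^ k` with `k = m v w` for all `v ≠ w` with
`m v w ≠ 0`. If `G_T = ⟨x_v : v ∈ T⟩` is in `C` for all finite sets `T` such that `m v w ≠ 0` for all
`v ≠ w` in `T`, then `G` is in `C`. -/
theorem result (C : ∀ (G : Type) [Group G], Prop) (hC : ClosedE C) :
    (∀ (V : Type) (A : V → Type) [∀ v, Group (A v)] (R : Set (Monoid.CoprodI A))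
      (Λ : SimpleGraph V), DelClosed A R Λ →
      (∀ T : Finset V, Clique Λ T → C ↥(Special A R (T : Set V))) → C (Pres A R)) ∧
    (∀ (V : Type) (n : V → ℕ) (m : V → V → ℕ), (∀ v w, m v w = m w v) →
      (∀ T : Finset V, (∀ v ∈ T, ∀ w ∈ T, v ≠ w → m v w ≠ 0) →
        C ↥(Special (Cy n) (EvenRel n m) (T : Set V))) → C (Pres (Cy n) (EvenRel n m))) :=
  ⟨fun _ _ _ _ Λ h hT => Pool.Agent.H65FJ.pres hC Λ h hT,
    fun _ n m hm hT => Pool.Agent.H65FJ.even_mem n m hC hm hT⟩

end Pool.Agent.Results.MP_98022b_gt.DeletionClosedPresentations
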