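import Pool.Agent.H65FJ.Finitary

/-!
# Farrell–Jones groups: extensions with finitary kernels

`C` is any class of groups with the closure properties `ClosedE C`: it contains `ℤ` and is closed
under subgroups, finite products, free products, overgroups of finite index, directed colimits and
satisfies the extension criterion with virtually cyclic subgroups. All this is known for the class of
the groups that satisfy the K- and L-theoretic Farrell–Jones conjecture with coefficients and finite
wreath products; for a torsion-free group `π_1 X` in this class `A_*` is an equivalence.

`N` is a normal subgroup of `G` on which the symmetric group of a set `Ω` acts in a finitary way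
(every element of `N` depends on finitely many points), and every element of `G` acts on `N` like a
permutation of `Ω` up to a locally inner automorphism, i.e. on every finite subset of `N` up to an
inner automorphism of `N`.

Examples: `Ω` empty: every element of `G` acts on `N` by a locally inner automorphism, as for the
infinite braid group `N` in the braided Houghton groups; arbitrary restricted permutational wreath
products and their versions `N(Ω) ⋊ Q` for every functor `N` from finite sets and injections to groups.

Outline of the proof. By the extension criterion it is enough to treat `N⟨g⟩`. This is the directed
colimit of the HNN extensions of finitely generated subgroups of `N` given by the conjugation with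
`g`. On finitely many elements `g` acts like an automorphism of `N` which has finite order modulo
inner automorphisms, so this partial conjugation becomes inner in a finite wreath product of `N`;
then the HNN extension embeds in `F(X) ⋊ P` with `P` in `C`.
-/

set_option autoImplicit false

namespace Pool.Agent.Results.MP_98022b_gt.FinitaryKernels

open Pool.Agent.Y110.FJ (ClosedE)

/-- Let `C` be a class of groups with the closure properties `ClosedE C`, let `N` be a normal subgroup
of `G` with `N` and `G / N` in `C`, and let the symmetric group of the set `Ω` act on `N` such that
each `n` in `N` is fixed by all permutations which fix the points of some finite set. If for each `g`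
in `G` there is a permutation `π` of `Ω` such that on each finite subset `E` of `N` the conjugation
with `g` is the composition of `α π` and an inner automorphism of `N`, then `G` is in `C`. -/
theorem result (C : ∀ (G : Type) [Group G], Prop) (hC : ClosedE C)
    (G : Type) [Group G] (N : Subgroup G) [N.Normal] (hN : C N) (hQ : C (G ⧸ N))
    (Ω : Type) (α : Equiv.Perm Ω →* MulAut N)
    (hα : ∀ n : N, ∃ S : Set Ω, S.Finite ∧ ∀ π : Equiv.Perm Ω, (∀ s ∈ S, π s = s) → α π n = n)
    (h : ∀ g : G, ∃ π : Equiv.Perm Ω, ∀ E : Set N, E.Finite → ∃ n : N, ∀ x ∈ E,
      g * (x : G) * g⁻¹ = ((n * α π x * n⁻¹ : N) : G)) : C G :=
  Pool.Agent.H65FJ.finitary hC G N hN hQ Ω α hα h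

end Pool.Agent.Results.MP_98022b_gt.FinitaryKernels
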